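import Mathlib
import Pool.Agent.Lib.MP_0a1b52_lc_HAZ.Final

/-!
# MP_0a1b52_lc, Q1: the hazards of small circuits for the clique function

A 0-hazard (1-hazard) of a circuit over literals at the assignment `x` with the unstable variables
`U` means that no (every) assignment which agrees with `x` outside `U` is accepted, but that the
output in Kleene's three-valued logic is unstable if the variables in `U` are. Q1 concerns circuits
with arbitrary hazards; circuits without any hazards are as weak as monotone circuits.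

* Lower bound (no hypothesis on Q1): every polynomial-size circuit for the clique function has a
  0-hazard and a 1-hazard inside every set of `ω(log⁸ n)` edges, at almost all graphs of two
  families which do not depend on the circuit. It also has a 0-hazard and a 1-hazard of at most `k`
  bits if `k = ω(log³ n · log log n)`.
* Upper bound: every circuit can be transformed into one without 0-hazards (1-hazards) of at most
  `k` bits at the cost of a factor `2 ^ O(k)` (up to a polynomial), and into one without hazards of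
  either kind inside a given set of `k` variables.
* Hence Q1 is equivalent to the statement that circuits for the clique function without 0-hazards of
  at most `c log n` bits have superpolynomial size, and this is proved for `ω(log³ n · log log n)`
  bits; for quasi-polynomial size the theorem is exact.

Proof of the lower bound: if both rails of the variables in `T` are put to 1 (0) where this does not
contradict the graph, the circuit becomes monotone in the edges of `T`, and monotone circuits of
this size cannot separate the two families. Upper bound: for a colouring `ω` of the variables with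
`2 k` colours and for each guess `v` of the parities of all colour classes, replace every literal by
its conjunction with the test that it is consistent with the other variables of its class and `v`;
take the disjunction over all `v` and the conjunction over a family of colourings such that every
set of `k` variables is separated by one of them.
-/

namespace Pool.Agent.Results.MP_0a1b52_lc.HazardFrontier

open Pool.Agent.CliqueHazards

open Pool.Agent.HazardCircuits (Circuit lit)

theorem result :
    -- (1) the lower bound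
    (∃ C : ℕ, ∀ n S : ℕ, C * (Nat.log 2 (n * S) + 1) ^ 8 ≤ n →
      ∀ T : Finset (EdgeVar n), T.Nonempty →
        ∃ (N : ℕ) (P Q : Fin N → SimpleGraph (Fin n)), 0 < N ∧ (∀ i, HasClique (P i)) ∧
          (∀ i, ¬ HasClique (Q i)) ∧
          ∀ s ≤ S, ∀ D : Circuit (EdgeVar n) s, Clq D → ∃ I : Finset (Fin N),
            I.card * T.card ≤ C * (Nat.log 2 (n * S) + 1) ^ 8 * N ∧
            ∀ i ∉ I, (∃ U ⊆ T, D.Hazard0 (edges (Q i)) U) ∧
              ∃ U ⊆ T, D.Hazard1 (edges (P i)) U) ∧
    -- (2) the upper bound: hazards of one kind, and hazards inside a given set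
    (∀ (V : Type) [Fintype V] (s : ℕ) (D : Circuit V s) (k : ℕ),
      (∃ s' ≤ 30 * 16 ^ k * (Fintype.card V + s) ^ 3, ∃ D' : Circuit V s',
        (∀ x, D'.Accepts (lit x) ↔ D.Accepts (lit x)) ∧ D'.Free0 k) ∧
      (∃ s' ≤ 30 * 16 ^ k * (Fintype.card V + s) ^ 3, ∃ D' : Circuit V s',
        (∀ x, D'.Accepts (lit x) ↔ D.Accepts (lit x)) ∧ D'.Free1 k) ∧
      ∀ T : Finset V, ∃ s' ≤ 2 ^ T.card * s + 4 ^ T.card + 3, ∃ D' : Circuit V s',
        (∀ x, D'.Accepts (lit x) ↔ D.Accepts (lit x)) ∧ D'.FreeIn T) ∧
    -- (3) polynomial size: `O(log n)` bits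
    (∀ c : ℕ, (Q1 ↔ ¬ PolyWith fun n _ D => D.Free0 (c * Nat.log 2 n)) ∧
      (Q1 ↔ ¬ PolyWith fun n _ D => D.Free1 (c * Nat.log 2 n)) ∧
      ∀ T : ∀ n, Finset (EdgeVar n), (∀ n, (T n).card ≤ c * Nat.log 2 n) →
        (Q1 ↔ ¬ PolyWith fun n _ D => D.FreeIn (T n))) ∧
    -- (4) polynomial size: `ω(log⁸ n)` bits inside a given set, `ω(log³ n · log log n)` bits
    (∀ T : ∀ n, Finset (EdgeVar n),
      (∀ C : ℕ, ∃ n₀ : ℕ, ∀ n ≥ n₀, C * Nat.log 2 n ^ 8 ≤ (T n).card) →
      ∀ c : ℕ, ∃ n₁ : ℕ, ∀ n ≥ n₁, ∀ s ≤ n ^ c, ∀ D : Circuit (EdgeVar n) s, Clq D →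
        (∃ x, ∃ U ⊆ T n, D.Hazard0 x U) ∧ ∃ x, ∃ U ⊆ T n, D.Hazard1 x U) ∧
    (∀ k : ℕ → ℕ,
      (∀ C : ℕ, ∃ n₀ : ℕ, ∀ n ≥ n₀, C * (Nat.log 2 n ^ 3 * Nat.log 2 (Nat.log 2 n)) ≤ k n) →
      ∀ c : ℕ, ∃ n₁ : ℕ, ∀ n ≥ n₁, ∀ s ≤ n ^ c, ∀ D : Circuit (EdgeVar n) s, Clq D →
        ¬ D.Free0 (k n) ∧ ¬ D.Free1 (k n)) ∧
    -- (5) quasi-polynomial size
    (∀ k : ℕ → ℕ,
      (QuasiPolyWith (fun n _ D => D.Free0 (k n) ∧ D.Free1 (k n)) ↔
        QuasiPolyWith (fun _ _ _ => True) ∧ ∃ d n₀ : ℕ, ∀ n ≥ n₀, k n ≤ Nat.log 2 n ^ d) ∧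
      (QuasiPolyWith (fun n _ D => D.Free0 (k n) ∨ D.Free1 (k n)) ↔
        QuasiPolyWith (fun _ _ _ => True) ∧ ∃ d n₀ : ℕ, ∀ n ≥ n₀, k n ≤ Nat.log 2 n ^ d)) :=
  ⟨avg, upper, fun c => ⟨q1_iff0 c, q1_iff1 c, q1_iff_in c⟩, lower_in, lower_few, quasi⟩

end Pool.Agent.Results.MP_0a1b52_lc.HazardFrontier
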