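import Mathlib
import Pool.Agent.Lib.MP_0a1b52_lc_SLICE2.Asm
import Pool.Agent.Lib.MP_0a1b52_lc_SLICE2.DropsOne
import Pool.Agent.Lib.MP_0a1b52_lc_WIN.Low2
import Pool.Agent.Lib.MP_0a1b52_lc_WIN.QP

/-!
# MP_0a1b52_lc, Q1: the number of NOT gates for the clique function on arbitrary sets of slices

A slice is the set of all graphs on `n` vertices with a given number of edges. Let `R` be a set of
slices. A chain of `d` drops of height `g` in `R` consists of elements
`a₀ < b₀ < a₁ < b₁ < ... < b_{d-1}` of `R` with `a_i + g ≤ b_i`.

* Lower bound (no hypothesis on Q1): if `R` has a chain of `d` drops of height `C log⁴ (n s)`, every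
  circuit with `s` gates which is correct on `R` has more than `log₂ d` NOT gates; it is enough that
  the circuit accepts the graphs with a clique in the slices `a_i` and rejects the graphs without a
  clique in the slices `b_i`.
* Upper bound: if `R` has no chain of `2 ^ h` drops of height `K + 1`, every circuit which is correct
  on `R` can be transformed, with a polynomial increase of the size for constant `K`, into one with
  at most `h` NOT gates.
* Consequences: exact theorems for circuits of polynomial size (for sets of slices in which distances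
  are `O(1)` or `ω(log⁴ n)`), and for circuits of quasi-polynomial size (no condition on the
  distances). For every constant `c`, Q1 is equivalent to the statement that circuits with
  `log₂ (n choose 2) - c` NOT gates for the clique function (on all graphs) have superpolynomial
  size; for `log₂ (n choose 2) - c' log log n` NOT gates this is proved.

Proof of the lower bound: the graphs in the slices `a₀ < b₀ < a₁ < ...` are built from independent
hard regions inside a small vertex set, padded by outer edges which fix the number of edges and the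
clique number. The vector of the values of the NOT gates, read in the order of the gates, grows
lexicographically along an increasing chain of graphs; inside each open region it has to change,
since small circuits without NOT gates cannot separate the planted graphs of slice `a_i` from the
graphs without a clique of slice `b_i`. Upper bound: circuits without NOT gates which separate the
positive inputs of slice `a` from the negative inputs of slice `a + g`, `g ≤ K`, by a recursion
which deletes one variable (threshold functions of slice functions, Berkowitz), and an inverter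
(Markov, Fischer) for the increasing list of the windows.
-/

namespace Pool.Agent.Results.MP_0a1b52_lc.NegationFrontier

open Pool.Agent.SliceCircuits

theorem result :
    -- (0) chains of drops of height 1
    (∀ (R : Finset ℕ) (d : ℕ), Drops 1 R d ↔ 2 * d ≤ R.card) ∧
    -- (1) the lower bound
    (∃ C : ℕ, ∀ (n s : ℕ) (D : Circuit (EdgeVar n) s) (d : ℕ) (a b : ℕ → ℕ),
      C * (Nat.log 2 (n * s) + 1) ^ 8 ≤ Nat.sqrt n →
      (∀ i < d, a i + C * (Nat.log 2 (n * s) + 1) ^ 4 ≤ b i) →
      (∀ i, i + 1 < d → b i < a (i + 1)) →
      (∀ i < d, n + C * d * (Nat.log 2 (n * s) + 1) ^ 8 ≤ a i ∧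
        b i + n * Nat.sqrt n + C * d * (Nat.log 2 (n * s) + 1) ^ 8 ≤ n.choose 2) →
      (∀ i < d, ∀ G : SimpleGraph (Fin n), G.edgeSet.ncard = a i → HasClique G →
        D.Accepts (fun e => G.Adj e.1.1 e.1.2)) →
      (∀ i < d, ∀ G : SimpleGraph (Fin n), G.edgeSet.ncard = b i → ¬ HasClique G →
        ¬ D.Accepts (fun e => G.Adj e.1.1 e.1.2)) →
      d < 2 ^ D.numNot) ∧
    -- (2) the upper bound
    (∀ (K n s : ℕ) (D : Circuit (EdgeVar n) s) (R : Finset ℕ) (h : ℕ),
      D.CorrectOn R → ¬ Drops (K + 1) R (2 ^ h) →
      ∃ s' ≤ (2 * K + 30) * 2 ^ (K + 3) * (n + s) ^ (2 * K + 6),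
        ∃ D' : Circuit (EdgeVar n) s', D'.numNot ≤ h ∧ D'.CorrectOn R) ∧
    -- (3) polynomial size, clustered sets of slices
    (∀ (K : ℕ) (R : ℕ → Finset ℕ), Clustered K R → ∀ h : ℕ → ℕ,
      (PolySizeOn R h ↔
        (∃ n₀ : ℕ, ∀ n ≥ n₀, ¬ Drops (K + 1) (R n) (2 ^ h n)) ∧ ¬ Q1)) ∧
    -- (4) polynomial size, all graphs
    (∀ c : ℕ, PolySizeOn (fun n => Finset.range (n.choose 2 + 1))
      (fun n => Nat.log 2 (n.choose 2) - c) ↔ ¬ Q1) ∧
    -- (5) quasi-polynomial size, all graphs and arbitrary sets of slices in the middle half
    (∀ h : ℕ → ℕ, QuasiPolySizeOn (fun _ => Set.univ) h ↔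
      (∃ c n₀ : ℕ, ∀ n ≥ n₀, n.choose 2 ≤ 2 ^ h n * Nat.log 2 n ^ c) ∧ QuasiPolySize) ∧
    (∀ R : ℕ → Finset ℕ, Middle R → ∀ h : ℕ → ℕ,
      (QuasiPolySizeOn (fun n => R n) h ↔
        (∃ c n₀ : ℕ, ∀ n ≥ n₀, ¬ Drops (Nat.log 2 n ^ c) (R n) (2 ^ h n)) ∧ QuasiPolySize)) :=
  ⟨drops_one_iff, lower3, upper2, fun K R hR h => dichotomy2 lower2 K R hR h, all_slices, qp_all,
    qp_middle⟩

end Pool.Agent.Results.MP_0a1b52_lc.NegationFrontier
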