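import Mathlib
import Pool.Agent.Lib.MP_0a1b52_lc_SF.Star
import Pool.Agent.Lib.MP_0a1b52_lc_EX.PartV

set_option autoImplicit false

/-!
# How often a circuit for the clique function reads its variables

The definitions (`EdgeVar`, `graphOf`, `HasClique`, `Clq`, `Gate`, `Circuit`, `Circuit.IsEval`,
`Circuit.Accepts`) are in `Pool/Agent/Lib/MP_0a1b52_lc_FP/Defs.lean`, the formal refutation trees
(`LTree`) in `Pool/Agent/Lib/MP_0a1b52_lc_RT/DefsL.lean`, the formal accepting trees (`ATree`) in
`Pool/Agent/Lib/MP_0a1b52_lc_RT/DefsA.lean`.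
-/

namespace Pool.Agent.Results.MP_0a1b52_lc.ReadTimes

open Pool.Agent.FP Pool.Agent.RT

open Classical in
/-- **How often a circuit for the clique function reads its variables.**

The circuits have, besides the variables, `t` further inputs; on the input `x` the further input `w`
has the value `g w x`, where the `g w` are any functions which do not depend on the variables in the
set `E` (free functions of the other variables).

(1) Let `r ≥ 1`, `n ≥ m ≥ 2 ^ (256 √r) =: u` and let `E` be a set of at least `m` variables.  There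
are graphs `Q 0, …, Q (N - 1)` on `n` vertices (`N > 0`, repetitions allowed), none with a clique of
more than `√n` vertices, with the following property.  Let `D` be such a circuit with at most
`2 ^ (m / u)` gates which accepts all graphs with a clique of more than `√n` vertices and which
reads each variable of `E` at most `r` times (counted as the number of leaves) in every formal
refutation tree from its output.  Then `D` rejects at most `N * 2 ^ (- m / u)` of the graphs `Q i`.
There are also graphs `P i` with cliques of more than `√n` vertices such that each such circuit with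
at most `2 ^ √(m / u)` gates which rejects all graphs without such cliques and which reads each
variable of `E` at most `r` times in every formal accepting tree accepts at most
`N * 2 ^ (- √(m / u))` of the `P i`.

(1') Let `r ≥ 1`, `m ≥ v := 2 ^ (128 √r) = √u` and `n ≥ 9 m ^ 2`, and let `E` be a set of variables
which touches at least `2 m` vertices (the elements of `W`).  Then both halves of (1) hold with the
exponent `m / v` in place of `m / u` and of `√(m / u)`.

(2) There is `m₀` such that for all `m ≥ m₀`, all `n ≥ m ^ 7` and all `m` variables which form a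
star forest (the edges `{z i, u i}`, where the `u i` are distinct and no `z i` is a `u j`) there are
such graphs `Q i` and `P i` with: each such circuit with `s` gates which accepts all graphs with
such cliques and reads each of the `m` variables at most once in every formal refutation tree
rejects at most `N * s * m ^ 12 / 2 ^ m` of the `Q i`; each such circuit with `s` gates which
rejects all graphs without such cliques and reads each of the `m` variables at most once in every
formal accepting tree accepts at most `N * s * m ^ 12 / 2 ^ m` of the `P i`.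

(3) For each set `E` of `k` variables and each function `f` there are such circuits with at most
`6 * 2 ^ k` gates and `2 ^ k` free functions which compute `f` and which read each variable of `E`
at most once in every formal refutation tree (in every formal accepting tree).

(4) Without free functions: for each circuit with `s` gates and each set `E` of `k` variables, not
all, there is a circuit with at most `2 ^ k (s + 2 k + 5)` gates which accepts the same graphs and
which reads each variable of `E` at most once in every formal refutation tree. -/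
theorem result :
    (∀ r m n : ℕ, 1 ≤ r → (2 : ℝ) ^ (256 * Real.sqrt r) ≤ m → m ≤ n →
      ∀ E : Finset (EdgeVar n), m ≤ E.card →
        (∃ (N : ℕ) (Q : Fin N → EdgeVar n → Bool), 0 < N ∧ (∀ i, ¬ Clq (Q i)) ∧
          ∀ (t : ℕ) (g : Fin t → (EdgeVar n → Bool) → Bool),
            (∀ w x y, (∀ f, f ∉ E → x f = y f) → g w x = g w y) →
          ∀ (s : ℕ) (D : Circuit (EdgeVar n ⊕ Fin t) s),
            (∀ x, Clq x → D.Accepts (Sum.elim x fun w => g w x)) →
            (s : ℝ) ≤ (2 : ℝ) ^ (m / (2 : ℝ) ^ (256 * Real.sqrt r)) →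
            (∀ e ∈ E, ∀ L, LTree D D.out L → (L.map Prod.fst).count (Sum.inl e) ≤ r) →
            ((Finset.univ.filter fun i =>
              ¬ D.Accepts (Sum.elim (Q i) fun w => g w (Q i))).card : ℝ) ≤
                N * (2 : ℝ) ^ (-(m / (2 : ℝ) ^ (256 * Real.sqrt r)))) ∧
        ∃ (N : ℕ) (P : Fin N → EdgeVar n → Bool), 0 < N ∧ (∀ i, Clq (P i)) ∧
          ∀ (t : ℕ) (g : Fin t → (EdgeVar n → Bool) → Bool),
            (∀ w x y, (∀ f, f ∉ E → x f = y f) → g w x = g w y) →
          ∀ (s : ℕ) (D : Circuit (EdgeVar n ⊕ Fin t) s),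
            (∀ x, ¬ Clq x → ¬ D.Accepts (Sum.elim x fun w => g w x)) →
            (s : ℝ) ≤ (2 : ℝ) ^ Real.sqrt (m / (2 : ℝ) ^ (256 * Real.sqrt r)) →
            (∀ e ∈ E, ∀ L, ATree D D.out L → L.count (Sum.inl e) ≤ r) →
            ((Finset.univ.filter fun i =>
              D.Accepts (Sum.elim (P i) fun w => g w (P i))).card : ℝ) ≤
                N * (2 : ℝ) ^ (-Real.sqrt (m / (2 : ℝ) ^ (256 * Real.sqrt r)))) ∧
    (∀ r m n : ℕ, 1 ≤ r → (2 : ℝ) ^ (128 * Real.sqrt r) ≤ m → 9 * m ^ 2 ≤ n →
      ∀ (E : Finset (EdgeVar n)) (W : Finset (Fin n)), 2 * m ≤ W.card →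
        (∀ v ∈ W, ∃ e ∈ E, e.1.1 = v ∨ e.1.2 = v) →
        (∃ (N : ℕ) (Q : Fin N → EdgeVar n → Bool), 0 < N ∧ (∀ i, ¬ Clq (Q i)) ∧
          ∀ (t : ℕ) (g : Fin t → (EdgeVar n → Bool) → Bool),
            (∀ w x y, (∀ f, f ∉ E → x f = y f) → g w x = g w y) →
          ∀ (s : ℕ) (D : Circuit (EdgeVar n ⊕ Fin t) s),
            (∀ x, Clq x → D.Accepts (Sum.elim x fun w => g w x)) →
            (s : ℝ) ≤ (2 : ℝ) ^ (m / (2 : ℝ) ^ (128 * Real.sqrt r)) →
            (∀ e ∈ E, ∀ L, LTree D D.out L → (L.map Prod.fst).count (Sum.inl e) ≤ r) →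
            ((Finset.univ.filter fun i =>
              ¬ D.Accepts (Sum.elim (Q i) fun w => g w (Q i))).card : ℝ) ≤
                N * (2 : ℝ) ^ (-(m / (2 : ℝ) ^ (128 * Real.sqrt r)))) ∧
        ∃ (N : ℕ) (P : Fin N → EdgeVar n → Bool), 0 < N ∧ (∀ i, Clq (P i)) ∧
          ∀ (t : ℕ) (g : Fin t → (EdgeVar n → Bool) → Bool),
            (∀ w x y, (∀ f, f ∉ E → x f = y f) → g w x = g w y) →
          ∀ (s : ℕ) (D : Circuit (EdgeVar n ⊕ Fin t) s),
            (∀ x, ¬ Clq x → ¬ D.Accepts (Sum.elim x fun w => g w x)) →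
            (s : ℝ) ≤ (2 : ℝ) ^ (m / (2 : ℝ) ^ (128 * Real.sqrt r)) →
            (∀ e ∈ E, ∀ L, ATree D D.out L → L.count (Sum.inl e) ≤ r) →
            ((Finset.univ.filter fun i =>
              D.Accepts (Sum.elim (P i) fun w => g w (P i))).card : ℝ) ≤
                N * (2 : ℝ) ^ (-(m / (2 : ℝ) ^ (128 * Real.sqrt r)))) ∧
    (∃ m₀ : ℕ, ∀ m ≥ m₀, ∀ n ≥ m ^ 7, ∀ u z : Fin m → Fin n,
      Function.Injective u → (∀ i j, z i ≠ u j) → ∀ e : Fin m → EdgeVar n,
      (∀ i, (e i).1 = (z i, u i) ∨ (e i).1 = (u i, z i)) →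
        (∃ (N : ℕ) (Q : Fin N → EdgeVar n → Bool), 0 < N ∧ (∀ i, ¬ Clq (Q i)) ∧
          ∀ (t : ℕ) (g : Fin t → (EdgeVar n → Bool) → Bool),
            (∀ w x y, (∀ f, (∀ i, f ≠ e i) → x f = y f) → g w x = g w y) →
          ∀ (s : ℕ) (D : Circuit (EdgeVar n ⊕ Fin t) s),
            (∀ x, Clq x → D.Accepts (Sum.elim x fun w => g w x)) →
            (∀ i L, LTree D D.out L → (L.map Prod.fst).count (Sum.inl (e i)) ≤ 1) →
            ((Finset.univ.filter fun i =>
              ¬ D.Accepts (Sum.elim (Q i) fun w => g w (Q i))).card : ℝ) ≤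
                N * (s * m ^ 12 / 2 ^ m)) ∧
        ∃ (N : ℕ) (P : Fin N → EdgeVar n → Bool), 0 < N ∧ (∀ i, Clq (P i)) ∧
          ∀ (t : ℕ) (g : Fin t → (EdgeVar n → Bool) → Bool),
            (∀ w x y, (∀ f, (∀ i, f ≠ e i) → x f = y f) → g w x = g w y) →
          ∀ (s : ℕ) (D : Circuit (EdgeVar n ⊕ Fin t) s),
            (∀ x, ¬ Clq x → ¬ D.Accepts (Sum.elim x fun w => g w x)) →
            (∀ i L, ATree D D.out L → L.count (Sum.inl (e i)) ≤ 1) →
            ((Finset.univ.filter fun i =>
              D.Accepts (Sum.elim (P i) fun w => g w (P i))).card : ℝ) ≤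
                N * (s * m ^ 12 / 2 ^ m)) ∧
    (∀ (n : ℕ) (E : Finset (EdgeVar n)) (f : (EdgeVar n → Bool) → Prop),
      (∃ (g : Fin (2 ^ E.card) → (EdgeVar n → Bool) → Bool) (s : ℕ)
        (D : Circuit (EdgeVar n ⊕ Fin (2 ^ E.card)) s),
        (∀ w x y, (∀ e, e ∉ E → x e = y e) → g w x = g w y) ∧ s ≤ 6 * 2 ^ E.card ∧
        (∀ x, D.Accepts (Sum.elim x fun w => g w x) ↔ f x) ∧
        ∀ e ∈ E, ∀ L, LTree D D.out L → (L.map Prod.fst).count (Sum.inl e) ≤ 1) ∧
      ∃ (g : Fin (2 ^ E.card) → (EdgeVar n → Bool) → Bool) (s : ℕ)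
        (D : Circuit (EdgeVar n ⊕ Fin (2 ^ E.card)) s),
        (∀ w x y, (∀ e, e ∉ E → x e = y e) → g w x = g w y) ∧ s ≤ 6 * 2 ^ E.card ∧
        (∀ x, D.Accepts (Sum.elim x fun w => g w x) ↔ f x) ∧
        ∀ e ∈ E, ∀ L, ATree D D.out L → L.count (Sum.inl e) ≤ 1) ∧
    ∀ (n s : ℕ) (D : Circuit (EdgeVar n) s) (E : Finset (EdgeVar n)), E ≠ Finset.univ →
      ∃ (s' : ℕ) (D' : Circuit (EdgeVar n) s'), s' ≤ 2 ^ E.card * (s + 2 * E.card + 5) ∧
        (∀ x, D'.Accepts x ↔ D.Accepts x) ∧
        ∀ e ∈ E, ∀ L, LTree D' D'.out L → (L.map Prod.fst).count e ≤ 1 :=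
  ⟨Pool.Agent.SF.partR, fun r m n hr hm hn E W hW hE =>
    Pool.Agent.EX.partV r m n hr hm hn E W hW hE, Pool.Agent.SF.partExact,
    Pool.Agent.SF.partUp, Pool.Agent.SF.partFree⟩

end Pool.Agent.Results.MP_0a1b52_lc.ReadTimes
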