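import Mathlib
import Pool.Agent.Lib.MP_0a1b52_lc_RW.Final

set_option autoImplicit false

/-!
# Circuits for the clique function: refutations with few lemmas, and reading patterns

The definitions (`EdgeVar`, `graphOf`, `HasClique`, `Clq`, `Gate`, `Circuit`, `Circuit.IsEval`,
`Circuit.Accepts`, `Circuit.Refutes`) are in `Pool/Agent/Lib/MP_0a1b52_lc_FP/Defs.lean`, and
`LocalProof`, `CutTree` and `Few` are in `Pool/Agent/Lib/MP_0a1b52_lc_RW/Defs.lean`.
-/

namespace Pool.Agent.Results.MP_0a1b52_lc.RefutationLemmas

open Pool.Agent.FP Pool.Agent.RW Finset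

/-- **Local proofs, and reading patterns, for circuits of the clique function.**
Let `δ ≥ 0` and `ε > 0` with `2 δ + ε ≤ 1`.  For all large `n`, all `2 ≤ K ≤ (ε / 16) log₂ n` and
all sets `Z 1, …, Z K` of at least `n ^ (- δ) n (n - 1) / 2` variables (for instance, with `δ = 0`,
all variables) there are graphs `Q 0, …, Q (N - 1)` on `n` vertices (`N > 0`, repetitions allowed),
none with a clique of more than `√n` vertices, such that the following holds for every family `F` of
at most `2 ^ (n ^ (2 - 2 δ - ε))` `K`-tuples `X = (X 1, …, X K)` of sets of variables such that the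
product of the fractions `|X k ∩ Z k| / |Z k|` is at least `n ^ (- ε / 16)`, and for all `s` and `r`
with `r log₂ (s + 1) ≤ n ^ (2 - 2 δ - ε)`:

1. Let `G 0, …, G (s - 1)` be functions of a graph.  Then for at most
   `N * 2 ^ (- n ^ (2 - 2 δ - ε))` of the graphs `Q i` there are an `X` in `F` and a local proof
   with `r` lines for `X` that `Q i` has no clique of more than `√n` vertices: a list of `r` of the
   functions with values, such that for each function of the list there is a `k` such that it has
   its value on all graphs which agree with `Q i` outside `X k` and on which the previous functions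
   of the list have their values, and such that there is a `k` such that no graph which agrees with
   `Q i` outside `X k` and on which all functions of the list have their values has a clique of
   more than `√n` vertices.
2. Let `D` be a circuit with `s` gates which accepts all graphs with a clique of more than `√n`
   vertices.  Then for at most `N * 2 ^ (- n ^ (2 - 2 δ - ε))` of the graphs `Q i` there are an `X`
   in `F` and a refutation tree in `D` whose list of variables is the concatenation of `r` (possibly
   empty) lists, such that for any two of them (also for one list taken twice) there is a `k` such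
   that no variable of the two lists is in `X k`. -/
theorem result (δ ε : ℝ) (hδ : 0 ≤ δ) (hε : 0 < ε) (hδε : 2 * δ + ε ≤ 1) : ∃ n₀ : ℕ, ∀ n ≥ n₀,
    ∀ K : ℕ, 2 ≤ K → (K : ℝ) ≤ ε / 16 * Real.logb 2 n →
    ∀ Z : Fin K → Finset (EdgeVar n),
    (∀ k, (n : ℝ) ^ (-δ) * (n.choose 2 : ℝ) ≤ ((Z k).card : ℝ)) →
    ∃ (N : ℕ) (Q : Fin N → EdgeVar n → Bool), 0 < N ∧ (∀ i, ¬ Clq (Q i)) ∧
      ∀ F : Finset (Fin K → Finset (EdgeVar n)),
        (∀ X ∈ F,
          (n : ℝ) ^ (-(ε / 16)) * ∏ k, ((Z k).card : ℝ) ≤ ∏ k, ((X k ∩ Z k).card : ℝ)) →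
        Real.logb 2 F.card ≤ (n : ℝ) ^ (2 - 2 * δ - ε) →
        ∀ s r : ℕ, r * Real.logb 2 (s + 1) ≤ (n : ℝ) ^ (2 - 2 * δ - ε) →
          (∀ G : Fin s → (EdgeVar n → Bool) → Bool,
            Few ((n : ℝ) ^ (2 - 2 * δ - ε)) fun i => ∃ X ∈ F, LocalProof G X (Q i) r) ∧
          ∀ D : Circuit (EdgeVar n) s, (∀ x, Clq x → D.Accepts x) →
            Few ((n : ℝ) ^ (2 - 2 * δ - ε)) fun i => ∃ X ∈ F, CutTree D X (Q i) r :=
  final_few δ ε hδ hε hδε

end Pool.Agent.Results.MP_0a1b52_lc.RefutationLemmas
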